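import Pool.Agent.Helper24.HK.Cfg
import Pool.Agent.Helper94.HK.Nat

/-!
# Naturality of the system and of the product (`k + 1` factors)
-/

set_option autoImplicit false

namespace Pool.Agent.Helper45.HK

open MvPolynomial Pool.Agent.Helper64.HK Pool.Agent.Helper24.HK
open Pool.Agent.Helper28.HN (I aff)
open Pool.Agent.Helper94.HK (map_ct map_Xz map_vh map_xh map_Fh map_Ah map_Bh map_psh map_kah
  map_th map_qh map_qa map_psP map_detM map_Nx)

section

variable {k m : ℕ} {a : Fin (k + 1) → Fin (m + 1)} {S S' : Type*} [CommRing S] [CommRing S']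
  (f : S →+* S') (c : Ix a → S) (s : Sel k m) (x : Un k m → S)

theorem map_pt : (fun j l => f (pt x j l)) = pt fun b => f (x b) :=
  map_ct f fun q => x (.inl q)

theorem map_xz (b : Lt k m) :
    (fun i => f (xz c s x b i)) = xz (fun e => f (c e)) s (fun b => f (x b)) b := by
  unfold xz
  rw [map_xh, map_Xz, map_pt]

theorem map_Eqn (i : Un k m) :
    f (Eqn c s x i) = Eqn (fun e => f (c e)) s (fun b => f (x b)) i := by
  cases i with
  | inr b => simp only [Eqn, map_psh, map_pt]
  | inl e =>
    simp only [Eqn, apply_ite f, map_kah, map_Fh, map_Ah, map_Bh, map_qh, map_xz, map_pt]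

theorem map_detVm (l : Fin k) :
    f (Vm c x l).det = (Vm (fun e => f (c e)) (fun b => f (x b)) l).det := by
  rw [RingHom.map_det]
  congr 1
  ext b i
  simp only [RingHom.mapMatrix_apply, Matrix.map_apply, Vm]
  rw [← map_pt f x, ← map_Xz, ← map_vh]

theorem map_detN (j : Fin (k + 1)) (X : Fin (k + 1) → I m → S) :
    f (Nx c j X).det = (Nx (fun e => f (c e)) j (fun j l => f (X j l))).det := by
  rw [RingHom.map_det, map_Nx]

theorem map_psD (j : Fin (k + 1)) (X : Fin (k + 1) → I m → S) (z : S) :
    f ((psP c j X).derivative.eval z) =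
      (psP (fun e => f (c e)) j (fun j l => f (X j l))).derivative.eval (f z) := by
  rw [← Polynomial.eval_map_apply, ← Polynomial.derivative_map, map_psP]

theorem map_Pp : f (Pp c s x) = Pp (fun e => f (c e)) s (fun b => f (x b)) := by
  simp only [Pp, map_mul, map_prod, apply_ite f, map_one, map_sub, map_detM, map_detN, map_Xz,
    map_pt, map_kah, map_th, map_psD, map_qh, map_xz, map_detVm]

end

end Pool.Agent.Helper45.HK
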