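import Mathlib

/-!
# Prime avoidance, and the variables of an irreducible polynomial

* `exists_irred`: an ideal of a polynomial ring which contains no two coprime elements is
  contained in a principal prime ideal.
* `exists_totalDegree_ne`: an irreducible polynomial in several blocks of variables is not constant
  in one of the blocks.
-/

set_option autoImplicit false

namespace Pool.Agent.Helper45.HK

open MvPolynomial

section avoid

variable {P : Type*} [CommRing P] [UniqueFactorizationMonoid P]

theorem exists_irred_of (A : Ideal P) (hA : A ≠ ⊥)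
    (h : ∀ F1 ∈ A, ∀ F2 ∈ A, ¬ IsRelPrime F1 F2) :
    ∃ w, Irreducible w ∧ ∀ F ∈ A, w ∣ F := by
  classical
  obtain ⟨F0, hF0, hne⟩ := Submodule.exists_mem_ne_zero_of_ne_bot hA
  set s : Finset P := (UniqueFactorizationMonoid.factors F0).toFinset with hs
  have hirr : ∀ w ∈ s, Irreducible w := fun w hw =>
    UniqueFactorizationMonoid.irreducible_of_factor w (Multiset.mem_toFinset.1 hw)
  have hsub : (A : Set P) ⊆ ⋃ w ∈ (s : Set P), (Ideal.span {w} : Ideal P) := by
    intro F hF
    have h1 := h F0 hF0 F hF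
    rw [IsRelPrime] at h1
    push Not at h1
    obtain ⟨d, hd0, hdF, hdu⟩ := h1
    have hdne : d ≠ 0 := by
      rintro rfl
      exact hne (zero_dvd_iff.1 hd0)
    obtain ⟨v, hv, hvd⟩ := WfDvdMonoid.exists_irreducible_factor hdu hdne
    obtain ⟨w, hw, hvw⟩ := UniqueFactorizationMonoid.exists_mem_factors_of_dvd hne hv
      (hvd.trans hd0)
    refine Set.mem_biUnion (x := w) (Finset.mem_coe.2 (Multiset.mem_toFinset.2 hw)) ?_
    exact Ideal.mem_span_singleton.2 (hvw.symm.dvd.trans (hvd.trans hdF))
  have h2 : ∃ w ∈ s, A ≤ Ideal.span {w} := by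
    have h3 := (Ideal.subset_union_prime (s := s) (f := fun w => (Ideal.span {w} : Ideal P)) 0 0
      (fun w hw _ _ => (Ideal.span_singleton_prime (hirr w hw).ne_zero).2
        (hirr w hw).prime) (I := A)).1 hsub
    exact h3
  obtain ⟨w, hw, hAw⟩ := h2
  exact ⟨w, hirr w hw, fun F hF => Ideal.mem_span_singleton.1 (hAw hF)⟩

end avoid

variable {k0 : Type*} [Field k0]

/-- (L1) -/
theorem exists_irred {σ : Type*} (A : Ideal (MvPolynomial σ k0)) (hA : A ≠ ⊥)
    (h : ∀ F1 ∈ A, ∀ F2 ∈ A, ¬ IsRelPrime F1 F2) :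
    ∃ w, Irreducible w ∧ ∀ F ∈ A, w ∣ F :=
  exists_irred_of A hA h

variable {k n : ℕ}

/-- Polynomials in the variables of the block `j`. -/
noncomputable def blk (k0 : Type*) [Field k0] {k : ℕ} (n : ℕ) (j : Fin k) :
    MvPolynomial (Fin k × Fin n) k0 →ₐ[k0]
      MvPolynomial (Fin n) (MvPolynomial ({l : Fin k // l ≠ j} × Fin n) k0) :=
  aeval (fun p => if h : p.1 = j then X p.2 else C (X (⟨p.1, h⟩, p.2)))

/-- The inverse. -/
noncomputable def unblk (k0 : Type*) [Field k0] {k : ℕ} (n : ℕ) (j : Fin k) :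
    MvPolynomial (Fin n) (MvPolynomial ({l : Fin k // l ≠ j} × Fin n) k0) →+*
      MvPolynomial (Fin k × Fin n) k0 :=
  eval₂Hom (rename (fun q : {l : Fin k // l ≠ j} × Fin n => (q.1.1, q.2))).toRingHom
    (fun i => X (j, i))

theorem unblk_blk (j : Fin k) (w : MvPolynomial (Fin k × Fin n) k0) :
    unblk k0 n j (blk k0 n j w) = w := by
  have h : (unblk k0 n j).comp (blk k0 n j).toRingHom = RingHom.id _ := by
    refine MvPolynomial.ringHom_ext (fun r => ?_) fun p => ?_
    · have h1 : (blk k0 n j).toRingHom (C r) = C (C r) := by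
        show blk k0 n j (C r) = _
        rw [blk, aeval_C]
        rfl
      rw [RingHom.comp_apply, h1, unblk, eval₂Hom_C]
      show rename _ (C r) = _
      rw [rename_C]
      rfl
    · have h1 : (blk k0 n j).toRingHom (X p) =
          if h : p.1 = j then X p.2 else C (X (⟨p.1, h⟩, p.2)) := by
        show blk k0 n j (X p) = _
        rw [blk, aeval_X]
      rw [RingHom.comp_apply, h1]
      split_ifs with hp
      · rw [unblk, eval₂Hom_X', ← hp]
        rfl
      · rw [unblk, eval₂Hom_C]
        show rename _ (X _) = _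
        rw [rename_X]
        rfl
  exact congrFun (congrArg DFunLike.coe h) w

theorem blk_injective (j : Fin k) : Function.Injective (blk k0 n j) :=
  Function.LeftInverse.injective (unblk_blk j)

theorem not_mem_vars {j : Fin k} {w : MvPolynomial (Fin k × Fin n) k0}
    (h : (blk k0 n j w).totalDegree = 0) (i : Fin n) : (j, i) ∉ w.vars := by
  classical
  rw [totalDegree_eq_zero_iff_eq_C] at h
  have h1 := unblk_blk j w
  rw [h, unblk, eval₂Hom_C] at h1
  rw [← h1]
  intro hm
  obtain ⟨q, -, hq⟩ := Finset.mem_image.1 (vars_rename _ _ hm)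
  exact q.1.2 (congrArg Prod.fst hq)

/-- (L2) -/
theorem exists_totalDegree_ne {w : MvPolynomial (Fin k × Fin n) k0} (hw : Irreducible w) :
    ∃ j : Fin k, (blk k0 n j w).totalDegree ≠ 0 := by
  by_contra h
  push Not at h
  have h1 : w.vars = ∅ := by
    ext ⟨j, i⟩
    simp only [Finset.notMem_empty, iff_false]
    exact not_mem_vars (h j) i
  have h2 : w.totalDegree = 0 := by
    rw [totalDegree_eq_zero_iff]
    intro m hm x
    by_contra h3
    have h4 : x ∈ w.vars := (mem_vars_iff_mem_support x).2 ⟨m, hm, Finsupp.mem_support_iff.2 h3⟩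
    rw [h1] at h4
    exact absurd h4 (Finset.notMem_empty x)
  rw [totalDegree_eq_zero_iff_eq_C] at h2
  have h3 : coeff 0 w ≠ 0 := by
    intro h0
    rw [h0, C_0] at h2
    exact hw.ne_zero h2
  apply hw.not_isUnit
  rw [h2]
  exact (IsUnit.mk0 _ h3).map C

end Pool.Agent.Helper45.HK
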