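import Pool.Agent.Helper47.W3.Fam
import Pool.Agent.Helper47.NI.Bi

/-!
# Families of points over a base ring: the forms which vanish on a family stable under both
involutions have no common divisor of positive degree
-/

set_option autoImplicit false

namespace Pool.Agent.Helper45.HK

open MvPolynomial Pool.Agent.Helper47.NI

section ring

variable {R : Type} [CommRing R] {n c : ℕ}

/-- The norm over a ring. -/
theorem exists_normR (r : R) (hr : 2 * r = 1) (G : Fin n × Fin n → MvPolynomial (Fin n) R)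
    (hG : ∀ p, (G p).IsHomogeneous c) {d : ℕ} {u v : MvPolynomial (Fin n) R}
    (hu : u.IsHomogeneous d) (hv : v.IsHomogeneous d) :
    ∃ F : MvPolynomial (Fin n) R, F.IsHomogeneous (c * d) ∧
      ∀ (A : Type) [CommRing A] (β : R →+* A) (y x x' : Fin n → A) (l : A),
        (∀ p, eval₂ β y (G p) = l * pr x x' p) →
        eval₂ β y F = l ^ d * (eval₂ β x u * eval₂ β x' v + eval₂ β x v * eval₂ β x' u) := by
  obtain ⟨H, hH, hval⟩ := exists_sym.{0} r hr d u v hu hv
  refine ⟨aeval G H, hH.aeval G hG, fun A _ β y x x' l hy => ?_⟩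
  let _ : Algebra R A := β.toAlgebra
  have h1 : eval₂ β y (aeval G H) = eval₂ β (fun p => eval₂ β y (G p)) H := by
    have h2 : (aeval y : MvPolynomial (Fin n) R →ₐ[R] A) (aeval G H) =
        aeval (fun p => (aeval y : MvPolynomial (Fin n) R →ₐ[R] A) (G p)) H := by
      rw [comp_aeval_apply]
    exact h2
  have h3 : (fun p => eval₂ β y (G p)) = l • (pr x x') := by
    funext p
    exact hy p
  rw [h1, h3]
  have h4 := hval A x x'
  have h5 : eval₂ β (l • pr x x') H = l ^ d * eval₂ β (pr x x') H := by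
    rw [eval₂_eq', eval₂_eq', Finset.mul_sum]
    refine Finset.sum_congr rfl fun a ha => ?_
    have h6 : a.degree = d := by
      by_contra h
      exact mem_support_iff.1 ha (hH.coeff_eq_zero h)
    simp only [Pi.smul_apply, smul_eq_mul, mul_pow, Finset.prod_mul_distrib]
    rw [Finset.prod_pow_eq_pow_sum]
    have h7 : ∑ i, a i = d := by
      rw [← h6, Finsupp.degree_eq_sum]
    rw [h7]
    ring
  rw [h5]
  congr 1

end ring

section desc

variable {R κ Ω ι : Type} [CommRing R] [Field κ] [Field Ω] [Algebra R κ] {n c : ℕ}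

/-- The forms of degree `e` over the ring which vanish on the family. -/
def gen (κ : Type) [Field κ] [Algebra R κ] (β : ι → R →+* Ω) (X : ι → Fin n → Ω) (e : ℕ) :
    Set (MvPolynomial (Fin n) κ) :=
  {P | ∃ P0 : MvPolynomial (Fin n) R, P0.IsHomogeneous e ∧ (∀ i, eval₂ (β i) (X i) P0 = 0) ∧
    P = map (algebraMap R κ) P0}

/-- The forms in the span. -/
def fset (κ : Type) [Field κ] [Algebra R κ] (β : ι → R →+* Ω) (X : ι → Fin n → Ω) :
    Set (MvPolynomial (Fin n) κ) :=
  {F | ∃ e, F ∈ Submodule.span κ (gen κ β X e)}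

theorem hom_of_span {β : ι → R →+* Ω} {X : ι → Fin n → Ω} {e : ℕ} {F : MvPolynomial (Fin n) κ}
    (h : F ∈ Submodule.span κ (gen κ β X e)) : F.IsHomogeneous e := by
  have h1 : Submodule.span κ (gen κ β X e) ≤ homogeneousSubmodule (Fin n) κ e := by
    rw [Submodule.span_le]
    rintro P ⟨P0, h0, -, rfl⟩
    exact h0.map _
  exact h1 h

/-- Norms in the span. -/
theorem norm_span (r : R) (hr : 2 * r = 1) (G : Fin n × Fin n → MvPolynomial (Fin n) R)
    (hG : ∀ p, (G p).IsHomogeneous c) (β : ι → R →+* Ω) (X Y : ι → Fin n → Ω) (s : ι → ι)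
    (hβ : ∀ i, β (s i) = β i)
    (hX : ∀ i, ∃ l : Ω, ∀ p, eval₂ (β i) (Y i) (G p) = l * pr (X i) (X (s i)) p)
    {e : ℕ} {g v : MvPolynomial (Fin n) κ} (hg : g ∈ Submodule.span κ (gen κ β X e))
    (hv : v.IsHomogeneous e) :
    ∃ N ∈ Submodule.span κ (gen κ β Y (c * e)), ∀ y x x' : Fin n → κ,
      (∀ p, eval y (map (algebraMap R κ) (G p)) = pr x x' p) →
        eval y N = eval x g * eval x' v + eval x v * eval x' g := by
  induction hg using Submodule.span_induction with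
  | mem P hP =>
    obtain ⟨P0, h0, h1, rfl⟩ := hP
    have hm : ∀ a ∈ v.support, ∃ N0 : MvPolynomial (Fin n) R, N0.IsHomogeneous (c * e) ∧
        (∀ i, eval₂ (β i) (Y i) N0 = 0) ∧ ∀ y x x' : Fin n → κ,
          (∀ p, eval y (map (algebraMap R κ) (G p)) = pr x x' p) →
          eval y (map (algebraMap R κ) N0) = eval x (map (algebraMap R κ) P0) * ∏ i, x' i ^ a i +
            (∏ i, x i ^ a i) * eval x' (map (algebraMap R κ) P0) := by
      intro a ha
      have hda : a.degree = e := by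
        by_contra h
        exact mem_support_iff.1 ha (hv.coeff_eq_zero h)
      have hmon : (monomial a (1 : R)).IsHomogeneous e := isHomogeneous_monomial _ hda
      obtain ⟨N0, hN0, hN⟩ := exists_normR r hr G hG h0 hmon
      refine ⟨N0, hN0, fun i => ?_, fun y x x' hy => ?_⟩
      · obtain ⟨l, hl⟩ := hX i
        rw [hN Ω (β i) (Y i) (X i) (X (s i)) l hl, h1 i, ← hβ i, h1 (s i)]
        ring
      · have h2 := hN κ (algebraMap R κ) y x x' 1 (fun p => by
          rw [one_mul, ← hy p, eval_map])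
        rw [eval_map, h2, one_pow, one_mul, eval_map, eval_map]
        have h3 : ∀ z : Fin n → κ, eval₂ (algebraMap R κ) z (monomial a (1 : R)) = ∏ i, z i ^ a i := by
          intro z
          rw [eval₂_monomial, map_one, one_mul, Finsupp.prod_fintype]
          intro i
          exact pow_zero _
        rw [h3, h3]
    choose! N0 hN0 hN1 hN2 using hm
    refine ⟨∑ a ∈ v.support, coeff a v • map (algebraMap R κ) (N0 a), ?_, fun y x x' hy => ?_⟩
    · exact Submodule.sum_mem _ fun a ha => Submodule.smul_mem _ _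
        (Submodule.subset_span ⟨N0 a, hN0 a ha, hN1 a ha, rfl⟩)
    · rw [map_sum]
      have h4 : ∀ z : Fin n → κ, eval z v = ∑ a ∈ v.support, coeff a v * ∏ i, z i ^ a i := fun z =>
        eval_eq' z v
      rw [h4 x, h4 x', Finset.mul_sum, Finset.sum_mul, ← Finset.sum_add_distrib]
      refine Finset.sum_congr rfl fun a ha => ?_
      rw [smul_eval, hN2 a ha y x x' hy]
      ring
  | zero =>
    refine ⟨0, Submodule.zero_mem _, fun y x x' _ => ?_⟩
    simp
  | add g1 g2 _ _ ih1 ih2 =>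
    obtain ⟨N1, h1, h1'⟩ := ih1
    obtain ⟨N2, h2, h2'⟩ := ih2
    refine ⟨N1 + N2, Submodule.add_mem _ h1 h2, fun y x x' hy => ?_⟩
    rw [map_add, h1' y x x' hy, h2' y x x' hy, map_add, map_add]
    ring
  | smul a g1 _ ih1 =>
    obtain ⟨N1, h1, h1'⟩ := ih1
    refine ⟨a • N1, Submodule.smul_mem _ _ h1, fun y x x' hy => ?_⟩
    rw [smul_eval, h1' y x x' hy, smul_eval, smul_eval]
    ring

theorem fset_norm (r : R) (hr : 2 * r = 1) (G : Fin n × Fin n → MvPolynomial (Fin n) R)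
    (hG : ∀ p, (G p).IsHomogeneous c) (β : ι → R →+* Ω) (X Y : ι → Fin n → Ω) (s : ι → ι)
    (hβ : ∀ i, β (s i) = β i)
    (hX : ∀ i, ∃ l : Ω, ∀ p, eval₂ (β i) (Y i) (G p) = l * pr (X i) (X (s i)) p)
    (e : ℕ) (g v : MvPolynomial (Fin n) κ) (hg : g ∈ fset κ β X) (he : g.IsHomogeneous e)
    (hv : v.IsHomogeneous e) :
    ∃ N ∈ fset κ β Y, ∀ y x x' : Fin n → κ,
      (∀ p, eval y (map (algebraMap R κ) (G p)) = pr x x' p) →
        eval y N = eval x g * eval x' v + eval x v * eval x' g := by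
  by_cases h0 : g = 0
  · subst h0
    refine ⟨0, ⟨0, Submodule.zero_mem _⟩, fun y x x' _ => ?_⟩
    simp
  obtain ⟨e', he'⟩ := hg
  have h1 : e = e' := IsHomogeneous.inj_right he (hom_of_span he') h0
  subst h1
  obtain ⟨N, hN, hN'⟩ := norm_span r hr G hG β X Y s hβ hX he' hv
  exact ⟨N, ⟨_, hN⟩, hN'⟩

/-- A family over a base ring which is stable under both involutions. -/
theorem desc [IsAlgClosed κ] [CharZero κ] (hinj : Function.Injective (algebraMap R κ))
    (r : R) (hr : 2 * r = 1) (hn : 2 ≤ n) (hc : 4 ≤ c)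
    (G G' : Fin n × Fin n → MvPolynomial (Fin n) R)
    (hG : ∀ p, (G p).IsHomogeneous c) (hG' : ∀ p, (G' p).IsHomogeneous c) (D : Dbl κ n c)
    (hDG : ∀ p, D.G p = map (algebraMap R κ) (G p))
    (hDG' : ∀ p, D.G' p = map (algebraMap R κ) (G' p))
    (hd : D.Dense) (hd' : D.swap.Dense) (β : ι → R →+* Ω) (X Y : ι → Fin n → Ω) (s t : ι → ι)
    (hβs : ∀ i, β (s i) = β i) (hβt : ∀ i, β (t i) = β i)
    (hX : ∀ i, ∃ l : Ω, ∀ p, eval₂ (β i) (Y i) (G p) = l * pr (X i) (X (s i)) p)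
    (hY : ∀ i, ∃ l : Ω, ∀ p, eval₂ (β i) (X i) (G' p) = l * pr (Y i) (Y (t i)) p)
    {w : MvPolynomial (Fin n) R} {d : ℕ} (hw : w.IsHomogeneous d) (hd0 : 0 < d)
    (hdvd : ∀ (F : MvPolynomial (Fin n) R) (e : ℕ), F.IsHomogeneous e →
      (∀ i, eval₂ (β i) (X i) F = 0) → w ∣ F)
    {F0 : MvPolynomial (Fin n) R} {e0 : ℕ} (hF0 : F0 ≠ 0) (hF0e : F0.IsHomogeneous e0)
    (hF0v : ∀ i, eval₂ (β i) (X i) F0 = 0) : False := by
  have h2 : (2 : κ) ≠ 0 := two_ne_zero
  have hAB : ∀ (e : ℕ) (g v : MvPolynomial (Fin n) κ), g ∈ fset κ β Y → g.IsHomogeneous e →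
      v.IsHomogeneous e → ∃ N ∈ fset κ β X, ∀ x y y' : Fin n → κ, (∀ p, eval x (D.G' p) = pr y y' p) →
        eval x N = eval y g * eval y' v + eval y v * eval y' g := by
    intro e g v hg he hv
    simp only [hDG']
    exact fset_norm r hr G' hG' β Y X t hβt hY e g v hg he hv
  have hBA : ∀ (e : ℕ) (g v : MvPolynomial (Fin n) κ), g ∈ fset κ β X → g.IsHomogeneous e →
      v.IsHomogeneous e → ∃ N ∈ fset κ β Y, ∀ y x x' : Fin n → κ, (∀ p, eval y (D.G p) = pr x x' p) →
        eval y N = eval x g * eval x' v + eval x v * eval x' g := by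
    intro e g v hg he hv
    simp only [hDG]
    exact fset_norm r hr G hG β X Y s hβs hX e g v hg he hv
  have hA : ∀ f ∈ fset κ β X, ∃ e, f.IsHomogeneous e := fun f ⟨e, he⟩ => ⟨e, hom_of_span he⟩
  have hB : ∀ f ∈ fset κ β Y, ∃ e, f.IsHomogeneous e := fun f ⟨e, he⟩ => ⟨e, hom_of_span he⟩
  have hFm : map (algebraMap R κ) F0 ∈ fset κ β X :=
    ⟨e0, Submodule.subset_span ⟨F0, hF0e, hF0v, rfl⟩⟩
  have hFm0 : map (algebraMap R κ) F0 ≠ 0 := by
    rwa [Ne, map_eq_zero_iff _ (map_injective _ hinj)]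
  have hA0 : ∃ F ∈ fset κ β X, F ≠ 0 := ⟨_, hFm, hFm0⟩
  have hB0 : ∃ F ∈ fset κ β Y, F ≠ 0 := by
    by_contra hcon
    push Not at hcon
    refine hFm0 (dense0 hn D.swap hd' fun x hx hgood => ?_)
    obtain ⟨y, hy⟩ := D.ex' hx hgood.1
    have hGy : ∃ p, eval y (D.G p) ≠ 0 := hgood.2 y hy
    exact Pool.Agent.Helper47.W3.fam_half h2 D.swap hA hBA (f := 0)
      (fun F hF => by rw [hcon F hF]) (show (y, x) ∈ D.swap.S from hy) hGy (map_zero _) hFm
  refine Pool.Agent.Helper47.W3.fam h2 hn hc D hd hd' hA hB hA0 hB0 hAB hBA (hw.map (algebraMap R κ)) hd0 ?_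
  rintro F ⟨e, he⟩
  induction he using Submodule.span_induction with
  | mem P hP =>
    obtain ⟨P0, h0, h1, rfl⟩ := hP
    exact _root_.map_dvd (map (algebraMap R κ)) (hdvd P0 e h0 h1)
  | zero => exact dvd_zero _
  | add g1 g2 _ _ ih1 ih2 => exact dvd_add ih1 ih2
  | smul a g1 _ ih1 =>
    rw [smul_eq_C_mul]
    exact Dvd.dvd.mul_left ih1 _

end desc

end Pool.Agent.Helper45.HK
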