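import Pool.Agent.Helper45.XN.Near
import Pool.Agent.Helper45.XN.Ball
import Pool.Agent.Helper2.KW.P0a
import Pool.Agent.Helper64.HK.Line
import Pool.Agent.Helper45.HK.NatP

/-!
# `p`-adic configurations near a configuration over a number field (`k + 1` factors)
-/

set_option autoImplicit false

namespace Pool.Agent.Helper45.HK

open MvPolynomial Finset Pool.Agent.Helper64.HK Pool.Agent.Helper24.HK
open Pool.Agent.Helper28.HN (I aff)

section

variable {k m : ℕ} {a : Fin (k + 1) → Fin (m + 1)} {S T : Type*} [CommRing S] [CommRing T]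

/-- The equations at the values. -/
theorem eval_Gs (c : Ix a → S) (s : Sel k m) (x : Un k m → S) (i : Un k m) :
    eval x (Gs c s i) = Eqn c s x i := by
  unfold Gs
  rw [map_Eqn]
  simp

theorem map_Gs (f : S →+* T) (c : Ix a → S) (s : Sel k m) (i : Un k m) :
    map f (Gs c s i) = Gs (fun e => f (c e)) s i := by
  unfold Gs
  rw [map_Eqn]
  simp

/-- The product as a polynomial. -/
theorem eval_Pp (c : Ix a → S) (s : Sel k m) (x : Un k m → S) :
    eval x (Pp (fun e => C (c e)) s X : MvPolynomial (Un k m) S) = Pp c s x := by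
  rw [map_Pp]
  simp

/-- The leading coefficient of the derivative at the start. -/
noncomputable def q0 (c : Ix a → S) (s : Sel k m) (x : Un k m → S) : S :=
  qa c s.f.succ (pt x) (xz c s x none)

theorem map_q0 (f : S →+* T) (c : Ix a → S) (s : Sel k m) (x : Un k m → S) :
    f (q0 c s x) = q0 (fun e => f (c e)) s (fun b => f (x b)) := by
  unfold q0
  rw [Pool.Agent.Helper94.HK.map_qa, map_pt, map_xz]

theorem eval_q0 (c : Ix a → S) (s : Sel k m) (x : Un k m → S) :
    eval x (q0 (fun e => C (c e)) s X : MvPolynomial (Un k m) S) = q0 c s x := by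
  rw [map_q0]
  simp

/-- The right hand sides. -/
def rh (s : Sel k m) (b : Bool) (p : ℕ) : Un k m → ℤ
  | .inr _ => 0
  | .inl e =>
    if e = s.S 2 then (if b then 0 else (p : ℤ) ^ 2) else
    if e = s.S 3 then (if b then (p : ℤ) ^ 2 else 0) else
    if e = s.S 4 then p else 0

theorem dvd_rh (s : Sel k m) (b : Bool) (p : ℕ) (i : Un k m) : (p : ℤ) ∣ rh s b p i := by
  have h2 : (p : ℤ) ∣ (p : ℤ) ^ 2 := dvd_pow_self _ two_ne_zero
  cases i with
  | inr _ => exact dvd_zero _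
  | inl e =>
    unfold rh
    dsimp only
    split_ifs
    · exact dvd_zero _
    · exact h2
    · exact h2
    · exact dvd_zero _
    · exact dvd_rfl
    · exact dvd_zero _

end

/-- The values of the system. -/
theorem eqn_vals {k m : ℕ} {a : Fin (k + 1) → Fin (m + 1)} {S : Type*} [CommRing S]
    (c : Ix a → S) (s : Sel k m) (x : Un k m → S) (b : Bool) (p : ℕ)
    (h : ∀ i, Eqn c s x i = (rh s b p i : ℤ)) :
    (∀ b, psh c (s.ty b).succ (pt x) (x (.inr b)) = 0) ∧
    kah c s.f.succ (pt x) (x (.inr none)) = 0 ∧ Fh c (pt x) (x (.inr none)) = 0 ∧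
    Ah c (pt x) = (if b then 0 else (p : S) ^ 2) ∧ Bh c (pt x) = (if b then (p : S) ^ 2 else 0) ∧
    qh c s.m'.1.succ (pt x) (xz c s x (some s.m')) (x (.inr (some s.j))) = p := by
  have hne : ∀ i j : Fin 5, i ≠ j → s.S i ≠ s.S j := fun i j hij h => hij (s.hS h)
  refine ⟨fun b' => ?_, ?_, ?_, ?_, ?_, ?_⟩
  · simpa [Eqn, rh] using h (.inr b')
  · have := h (.inl (s.S 0))
    simpa [Eqn, rh, hne 0 2 (by decide), hne 0 3 (by decide), hne 0 4 (by decide)] using this
  · have := h (.inl (s.S 1))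
    simpa [Eqn, rh, hne 1 0 (by decide), hne 1 2 (by decide), hne 1 3 (by decide),
      hne 1 4 (by decide)] using this
  · have := h (.inl (s.S 2))
    cases b <;> simpa [Eqn, rh, hne 2 0 (by decide), hne 2 1 (by decide)] using this
  · have := h (.inl (s.S 3))
    cases b <;> simpa [Eqn, rh, hne 3 0 (by decide), hne 3 1 (by decide),
      hne 3 2 (by decide)] using this
  · have := h (.inl (s.S 4))
    simpa [Eqn, rh, hne 4 0 (by decide), hne 4 1 (by decide), hne 4 2 (by decide),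
      hne 4 3 (by decide)] using this

/-- The algebra of the configuration. -/
theorem cfg_of {p : ℕ} [Fact p.Prime] (hp : p ≠ 2) {k m : ℕ} {a : Fin (k + 1) → Fin (m + 1)}
    (c : Ix a → ℤ_[p]) (s : Sel k m) (x : Un k m → ℤ_[p]) (b : Bool)
    (h : ∀ i, Eqn c s x i = (rh s b p i : ℤ)) (hP : IsUnit (Pp c s x))
    (hb : b = true ↔ IsUnit (q0 c s x)) : Cfg c s x := by
  have hp2 : ‖(2 : ℤ_[p])‖ = 1 := by
    have h1 : ‖((2 : ℤ) : ℤ_[p])‖ = 1 := by
      refine le_antisymm (PadicInt.norm_le_one _) ?_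
      by_contra hcon
      push Not at hcon
      rw [PadicInt.norm_intCast_lt_one_iff] at hcon
      have h2 : p ∣ 2 := by exact_mod_cast hcon
      exact hp ((Nat.prime_dvd_prime_iff_eq Fact.out Nat.prime_two).1 h2)
    exact_mod_cast h1
  obtain ⟨hpsi, hkap, hF0, hA, hB, hq⟩ := eqn_vals c s x b p h
  have hpp : ‖(p : ℤ_[p]) ^ 2‖ = (p : ℝ) ^ (-2 : ℤ) := by
    rw [norm_pow, PadicInt.norm_p, inv_pow, zpow_neg]
    norm_cast
  have h0 : (0 : ℝ) ≤ (p : ℝ) ^ (-2 : ℤ) := zpow_nonneg (Nat.cast_nonneg _) _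
  have hu := hP
  simp only [Pp, IsUnit.mul_iff] at hu
  obtain ⟨⟨⟨⟨⟨⟨⟨-, hu1⟩, -⟩, -⟩, -⟩, -⟩, hu2⟩, -⟩ := hu
  have hl0 : (none : Lt k m) ≠ some s.j := by simp
  have hu3 : IsUnit (x (.inr none) - x (.inr (some s.j))) := by
    have h1 := isUnit_of_dvd_unit (Finset.dvd_prod_of_mem _ (mem_univ (none : Lt k m))) hu1
    have h2 := isUnit_of_dvd_unit (Finset.dvd_prod_of_mem _ (mem_univ (some s.j))) h1
    rwa [if_neg hl0] at h2
  have hu4 : IsUnit (qh c s.f.succ (pt x) (xz c s x none) (x (.inr (some s.j)))) := by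
    have h1 := isUnit_of_dvd_unit (Finset.dvd_prod_of_mem _ (mem_univ (none : Lt k m))) hu2
    have h2 := isUnit_of_dvd_unit (Finset.dvd_prod_of_mem _ (mem_univ (some s.j))) h1
    rwa [if_neg (by simp)] at h2
  refine ⟨hpsi, hkap, hF0, ?_, ?_, ?_, hP, ?_⟩
  · rw [hA]
    split
    · rw [norm_zero]
      exact h0
    · exact hpp.le
  · rw [hB]
    split
    · exact hpp.le
    · rw [norm_zero]
      exact h0
  · rw [hq, PadicInt.norm_p, zpow_neg_one]
  · rw [Fh_eq] at hF0 ⊢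
    have hC : Ch c (pt x) = - (Ah c (pt x) * x (.inr none) ^ 2 +
        2 * Bh c (pt x) * x (.inr none)) := by
      linear_combination hF0
    obtain ⟨q, hqd⟩ : ∃ q, q = qh c s.f.succ (pt x) (xz c s x none) (x (.inr (some s.j))) :=
      ⟨_, rfl⟩
    obtain ⟨e, hed⟩ : ∃ e, e = qa c s.f.succ (pt x) (xz c s x none) := ⟨_, rfl⟩
    obtain ⟨z, hzd⟩ : ∃ z, z = x (.inr (some s.j)) := ⟨_, rfl⟩
    obtain ⟨z0, hz0d⟩ : ∃ z0, z0 = x (.inr none) := ⟨_, rfl⟩
    have hb' : b = true ↔ IsUnit e := by rw [hb, hed]; rfl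
    rw [← hqd] at hu4 ⊢
    rw [← hzd, ← hz0d] at hu3
    rw [hC, ← hed, ← hzd, ← hz0d, hA, hB]
    rw [PadicInt.isUnit_iff] at hu3 hu4
    cases b with
    | true =>
      have h1 : ‖e‖ = 1 := PadicInt.isUnit_iff.1 (hb'.1 rfl)
      have h2 : (if true = true then (0 : ℤ_[p]) else (p : ℤ_[p]) ^ 2) * q -
          e * ((if true = true then (0 : ℤ_[p]) else (p : ℤ_[p]) ^ 2) * z ^ 2 +
            2 * (if true = true then (p : ℤ_[p]) ^ 2 else 0) * z +
            -((if true = true then (0 : ℤ_[p]) else (p : ℤ_[p]) ^ 2) * z0 ^ 2 +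
            2 * (if true = true then (p : ℤ_[p]) ^ 2 else 0) * z0)) =
          e * (2 * (p : ℤ_[p]) ^ 2 * (z0 - z)) := by
        simp only [if_true]
        ring
      rw [h2, norm_mul, norm_mul, norm_mul, h1, hp2, hpp, hu3]
      ring
    | false =>
      have h1 : ‖e‖ < 1 := by
        by_contra hcon
        have h3 : ‖e‖ = 1 := le_antisymm (PadicInt.norm_le_one _) (not_lt.1 hcon)
        have h4 := hb'.2 (PadicInt.isUnit_iff.2 h3)
        exact absurd h4 (by simp)
      have h2 : (if false = true then (0 : ℤ_[p]) else (p : ℤ_[p]) ^ 2) * q -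
          e * ((if false = true then (0 : ℤ_[p]) else (p : ℤ_[p]) ^ 2) * z ^ 2 +
            2 * (if false = true then (p : ℤ_[p]) ^ 2 else 0) * z +
            -((if false = true then (0 : ℤ_[p]) else (p : ℤ_[p]) ^ 2) * z0 ^ 2 +
            2 * (if false = true then (p : ℤ_[p]) ^ 2 else 0) * z0)) =
          (p : ℤ_[p]) ^ 2 * (q + - (e * (z ^ 2 - z0 ^ 2))) := by
        simp only [Bool.false_eq_true, if_false]
        ring
      have h3 : ‖e * (z ^ 2 - z0 ^ 2)‖ < 1 := by
        rw [norm_mul]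
        calc ‖e‖ * ‖z ^ 2 - z0 ^ 2‖ ≤ ‖e‖ * 1 :=
              mul_le_mul_of_nonneg_left (PadicInt.norm_le_one _) (norm_nonneg _)
          _ < 1 := by rwa [mul_one]
      rw [h2, norm_mul, hpp, IsUltrametricDist.norm_add_eq_max_of_norm_ne_norm (by
        rw [norm_neg, hu4]
        exact h3.ne'), norm_neg, hu4, max_eq_left h3.le, mul_one]

/-- Near a configuration over a number field there are `p`-adic configurations. -/
theorem exists_padic {k m : ℕ} {a : Fin (k + 1) → Fin (m + 1)} (s : Sel k m) {L : Type} [Field L]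
    [NumberField L] (c : Ix a → L) (x : Un k m → L) (hE : ∀ i, Eqn c s x i = 0)
    (hP : Pp c s x ≠ 0) (hJ : (Matrix.of fun i j => eval x (pderiv j (Gs c s i))).det ≠ 0) :
    ∃ (p : ℕ) (_ : Fact p.Prime) (φ : L →+* ℚ_[p]) (c' : Ix a → ℤ_[p]) (x' : Un k m → ℤ_[p])
      (K : IntermediateField ℚ ℚ_[p]), p ≠ 2 ∧ FiniteDimensional ℚ K ∧ (∀ y, φ y ∈ K) ∧
      (∀ i, (x' i : ℚ_[p]) ∈ K) ∧ (∀ e, (c' e : ℚ_[p]) = φ (c e)) ∧ Cfg c' s x' := by
  classical
  set Jd : L := (Matrix.of fun i j => eval x (pderiv j (Gs c s i))).det with hJd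
  let S : Finset L := (univ.image c ∪ univ.image x) ∪ {Jd, Pp c s x, q0 c s x}
  obtain ⟨p, hp, φ, hp2, hφ⟩ := Pool.Agent.Helper2.KW.exists_embedding S
  have hS1 : ∀ x ∈ S, ‖φ x‖ ≤ 1 := by
    intro x hx
    by_cases h : x = 0
    · rw [h, map_zero, norm_zero]
      exact zero_le_one
    · exact (hφ x hx h).le
  have hcS : ∀ e, c e ∈ S := fun e =>
    mem_union_left _ (mem_union_left _ (mem_image_of_mem _ (mem_univ e)))
  have hkS : ∀ i, x i ∈ S := fun i =>
    mem_union_left _ (mem_union_right _ (mem_image_of_mem _ (mem_univ i)))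
  have hJS : Jd ∈ S := mem_union_right _ (by simp)
  have hPS : Pp c s x ∈ S := mem_union_right _ (by simp)
  have hqS : q0 c s x ∈ S := mem_union_right _ (by simp)
  obtain ⟨b, hb⟩ : ∃ b : Bool, b = true ↔ q0 c s x ≠ 0 := ⟨decide (q0 c s x ≠ 0), by simp⟩
  set ψ : ℤ_[p] →+* ℚ_[p] := PadicInt.Coe.ringHom (p := p) with hψ
  have hψn : ∀ x : ℤ_[p], ‖ψ x‖ = ‖x‖ := fun x => rfl
  have hψi : Function.Injective ψ := Subtype.val_injective
  let c' : Ix a → ℤ_[p] := fun e => ⟨φ (c e), hS1 _ (hcS e)⟩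
  let k1 : Un k m → ℤ_[p] := fun i => ⟨φ (x i), hS1 _ (hkS i)⟩
  have hc' : (fun e => ψ (c' e)) = fun e => φ (c e) := rfl
  have hk1 : (fun i => ψ (k1 i)) = fun i => φ (x i) := rfl
  -- the neighbouring solution
  have hrt : ∀ i : Un k m, ‖φ ((rh s b p i : ℤ) : L)‖ < 1 := by
    intro i
    rw [map_intCast]
    exact (Padic.norm_intCast_lt_one_iff).2 (dvd_rh s b p i)
  obtain ⟨k2, K', hfin, hφK, hk2K, hk2, hk2k, -⟩ := Pool.Agent.Helper45.XN.exists_near φ
    (fun i => Gs c s i) (fun i mo => by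
      have h4 : φ (coeff mo (Gs c s i)) = ψ (coeff mo (Gs c' s i)) := by
        rw [← coeff_map, ← coeff_map, map_Gs, map_Gs]
        rfl
      rw [h4]
      exact PadicInt.norm_le_one _) x (fun i => hS1 _ (hkS i))
    (fun i => ((rh s b p i : ℤ) : L))
    (fun i => by
      rw [eval_Gs, hE, zero_sub, map_neg, norm_neg]
      exact hrt _) (hφ _ hJS hJ)
  have hk2n : ∀ i, ‖k2 i‖ ≤ 1 := by
    intro i
    have h4 : k2 i = (k2 i - φ (x i)) + φ (x i) := by ring
    rw [h4]
    exact (IsUltrametricDist.norm_add_le_max _ _).trans (max_le (hk2k i).le (hS1 _ (hkS i)))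
  let k' : Un k m → ℤ_[p] := fun i => ⟨k2 i, hk2n i⟩
  have hk' : (fun i => ψ (k' i)) = k2 := rfl
  have hkk : ‖k' - k1‖ < 1 := (pi_norm_lt_iff one_pos).2 fun i => hk2k i
  have hunit : ∀ (P : MvPolynomial (Un k m) ℤ_[p]) (y : L), ψ (eval k1 P) = φ y →
      (IsUnit (eval k' P) ↔ ‖φ y‖ = 1) := by
    intro P y hy
    have h4 := (Pool.Agent.Helper45.XN.norm_eval_sub_le P k' k1).trans_lt hkk
    rw [← hy, hψn, PadicInt.isUnit_iff]
    obtain ⟨u, hu⟩ : ∃ u, u = eval k' P := ⟨_, rfl⟩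
    obtain ⟨v, hv⟩ : ∃ v, v = eval k1 P := ⟨_, rfl⟩
    rw [← hu, ← hv] at h4 ⊢
    constructor
    · intro h5
      have h6 : v = u - (u - v) := by ring
      rw [h6, sub_eq_add_neg, IsUltrametricDist.norm_add_eq_max_of_norm_ne_norm (by
        rw [norm_neg, h5]
        exact h4.ne'), norm_neg, h5, max_eq_left h4.le]
    · intro h5
      have h6 : u = v + (u - v) := by ring
      rw [h6, IsUltrametricDist.norm_add_eq_max_of_norm_ne_norm (by
        rw [h5]
        exact h4.ne'), h5, max_eq_left h4.le]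
  refine ⟨p, hp, φ, c', k', K', hp2, hfin, hφK, hk2K, fun e => rfl, cfg_of hp2 c' s k' b ?_ ?_ ?_⟩
  · intro i
    apply hψi
    have h4 := hk2 (i)
    rw [← eval_map, map_Gs, eval_Gs, map_intCast] at h4
    rw [map_Eqn, hc', hk', h4, map_intCast]
  · have h4 := hunit (Pp (fun e => C (c' e)) s X) (Pp c s x) (by
      rw [eval_Pp, map_Pp, map_Pp]
      rfl)
    rw [eval_Pp] at h4
    exact h4.2 (hφ _ hPS hP)
  · have h4 := hunit (q0 (fun e => C (c' e)) s X) (q0 c s x) (by
      rw [eval_q0, map_q0, map_q0]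
      rfl)
    rw [eval_q0] at h4
    rw [hb, h4]
    constructor
    · intro h5
      exact hφ _ hqS h5
    · intro h5 h6
      rw [h6, map_zero, norm_zero] at h5
      exact zero_ne_one h5

end Pool.Agent.Helper45.HK
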